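import Pool.Agent.Helper18.NF.Stmts

/-! # NRG : the classes of `B(δ^j F) / B(F)` have rational norm -/

set_option autoImplicit false

namespace Pool.Agent.Helper18.NF

open Pool.Agent.Helper14.BSC Polynomial

theorem nrg_ne {k Ω : Type} [Field k] [Field Ω] [Algebra k Ω] [CharZero k] [IsAlgClosed Ω]
    (hDLB : ST_DLB) (D : Sec k Ω) (A B : k[X]) (dyn : Dyn A B) (F : LL D) (hF : NC D F) (j : ℕ) :
    Gm D A B F j ≠ 0 := by
  obtain ⟨h1, h2⟩ := hDLB k Ω D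
  have hB : B ≠ 0 := by
    intro h0
    have h3 := dyn.pos
    rw [h0, natDegree_zero] at h3
    omega
  unfold Gm
  exact div_ne_zero (h1 _ ((h2 A B dyn).1 F hF j) B hB) (h1 _ hF B hB)

theorem st_NRG (hDLB : ST_DLB) (hALM : ST_ALM) (hGOD : ST_GOD) (hBAD : ST_BAD) (hSYS : ST_SYS)
    (hNRQ : ST_NRQ) : ST_NRG := by
  intro k Ω _ _ _ _ _ D A B dyn f hf hback
  obtain ⟨S, hS⟩ := hALM k A B dyn
  have hQ : ∀ p : ℕ, ∃ m : ℕ, ∀ [Fact p.Prime], ∃ (T : TS k ℚ p) (P : ∀ i, Place D p (T.σ i)),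
      ∀ i0, m ≤ i0 → ∀ j, ∀ i, ∃ v, fin_Val (P i) (Gm D A B ((dl A B)^[i0] f) j) v ∧ v ≠ 0 := by
    intro p
    by_cases hp : p.Prime
    · haveI : Fact p.Prime := ⟨hp⟩
      obtain ⟨T, hT⟩ := (hSYS k Ω D p).1
      have hm : ∀ i, ∃ m : ℕ, ∀ i0 : ℕ, m ≤ i0 → ∀ j : ℕ,
          ∃ v, fin_Val (hT i).some (Gm D A B ((dl A B)^[i0] f) j) v ∧ v ≠ 0 := fun i =>
        hBAD k Ω D A B dyn f hf p (T.σ i) (hT i).some
      choose m hm2 using hm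
      refine ⟨Finset.univ.sup m, ?_⟩
      intro _
      refine ⟨T, fun i => (hT i).some, ?_⟩
      intro i0 hi0 j i
      exact hm2 i i0 (le_trans (Finset.le_sup (f := m) (Finset.mem_univ i)) hi0) j
    · exact ⟨0, fun {h} => absurd h.out hp⟩
  choose m hm using hQ
  refine ⟨S.sup m, ?_⟩
  intro j
  obtain ⟨hNC, hNC2, hBk⟩ := (hDLB k Ω D).2 A B dyn
  have hF : NC D ((dl A B)^[S.sup m] f) := hNC f hf _
  have hFb : Back D A B ((dl A B)^[S.sup m] f) := hBk f hback _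
  have hgood : ∀ (p : ℕ) [Fact p.Prime], p ∉ S → ∃ (T : TS k ℚ p)
      (P : ∀ i, Place D p (T.σ i)), ∀ i, ∃ v,
        fin_Val (P i) (Gm D A B ((dl A B)^[S.sup m] f) j) v ∧ ‖v‖ = 1 := by
    intro p _ hp
    obtain ⟨T, hT⟩ := (hSYS k Ω D p).1
    exact ⟨T, fun i => (hT i).some, fun i =>
      hGOD k Ω D A B dyn p (T.σ i) (hS p hp (T.σ i)) (hT i).some _ hF hFb j⟩
  refine hNRQ k Ω D _ (nrg_ne hDLB D A B dyn _ hF j) ?_ ⟨S, hgood⟩
  intro p _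
  by_cases hp : p ∈ S
  · obtain ⟨T, P, h⟩ := @hm p _
    exact ⟨T, P, fun i => h _ (Finset.le_sup (f := m) hp) j i⟩
  · obtain ⟨T, P, h⟩ := hgood p hp
    refine ⟨T, P, fun i => ?_⟩
    obtain ⟨v, hv, hv1⟩ := h i
    refine ⟨v, hv, ?_⟩
    intro h0
    rw [h0, norm_zero] at hv1
    exact zero_ne_one hv1

end Pool.Agent.Helper18.NF
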