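import Mathlib

/-!
# One dimensional integrals of the weight `(1 + L x ^ 2) ^ (-2)`
-/

namespace Pool.Agent.Helper1.NF

open MeasureTheory

noncomputable section

/-- the one dimensional weight -/
def w1 (L x : ℝ) : ℝ := ((1 + L * x ^ 2) ^ 2)⁻¹

lemma w1_pos {L : ℝ} (hL : 0 < L) (x : ℝ) : 0 < w1 L x := by
  unfold w1; positivity

lemma w1_neg (L x : ℝ) : w1 L (-x) = w1 L x := by
  unfold w1; ring_nf

lemma w1_cont {L : ℝ} (hL : 0 < L) : Continuous (w1 L) := by
  unfold w1
  exact Continuous.inv₀ (by fun_prop) (fun x => by positivity)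

lemma w1_le {L : ℝ} (hL : 0 < L) (x : ℝ) : w1 L x ≤ (1 + L * x ^ 2)⁻¹ := by
  unfold w1
  have h : (1 : ℝ) ≤ 1 + L * x ^ 2 := by nlinarith [mul_nonneg hL.le (sq_nonneg x)]
  apply inv_anti₀ (by positivity)
  nlinarith

lemma base_int {L : ℝ} (hL : 0 < L) : Integrable (fun x : ℝ => (1 + L * x ^ 2)⁻¹) := by
  have h := (integrable_inv_one_add_sq).comp_mul_left' (Real.sqrt_ne_zero'.2 hL)
  refine h.congr (Filter.Eventually.of_forall fun x => ?_)
  simp only [mul_pow, Real.sq_sqrt hL.le]

lemma base_val {L : ℝ} (hL : 0 < L) : ∫ x : ℝ, (1 + L * x ^ 2)⁻¹ = (Real.sqrt L)⁻¹ * Real.pi := by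
  have h := Measure.integral_comp_mul_left (fun x : ℝ => (1 + x ^ 2)⁻¹) (Real.sqrt L)
  rw [integral_univ_inv_one_add_sq, abs_of_nonneg (by positivity), smul_eq_mul] at h
  rw [← h]
  congr 1
  ext x
  simp only [mul_pow, Real.sq_sqrt hL.le]

lemma w1_int {L : ℝ} (hL : 0 < L) : Integrable (w1 L) := by
  refine (base_int hL).mono' (w1_cont hL).aestronglyMeasurable
    (Filter.Eventually.of_forall fun x => ?_)
  rw [Real.norm_of_nonneg (w1_pos hL x).le]
  exact w1_le hL x

lemma sq_w1_le {L : ℝ} (hL : 0 < L) (x : ℝ) : x ^ 2 * w1 L x ≤ L⁻¹ * (1 + L * x ^ 2)⁻¹ := by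
  unfold w1
  have h : (0 : ℝ) < 1 + L * x ^ 2 := by positivity
  rw [← mul_inv, ← div_eq_mul_inv, div_le_iff₀ (by positivity), inv_mul_eq_div,
    le_div_iff₀ (by positivity)]
  nlinarith [h, hL]

lemma sq_int {L : ℝ} (hL : 0 < L) : Integrable (fun x => x ^ 2 * w1 L x) := by
  refine ((base_int hL).const_mul L⁻¹).mono'
    ((continuous_pow 2).mul (w1_cont hL)).aestronglyMeasurable
    (Filter.Eventually.of_forall fun x => ?_)
  rw [Real.norm_of_nonneg (mul_nonneg (sq_nonneg _) (w1_pos hL x).le)]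
  exact sq_w1_le hL x

lemma id_int {L : ℝ} (hL : 0 < L) : Integrable (fun x => x * w1 L x) := by
  refine ((w1_int hL).add (sq_int hL)).mono'
    (continuous_id.mul (w1_cont hL)).aestronglyMeasurable
    (Filter.Eventually.of_forall fun x => ?_)
  rw [norm_mul, Real.norm_of_nonneg (w1_pos hL x).le, Real.norm_eq_abs]
  have h1 : |x| ≤ 1 + x ^ 2 := by
    rw [← sq_abs]; nlinarith [abs_nonneg x, sq_nonneg (|x| - 1)]
  have := mul_le_mul_of_nonneg_right h1 (w1_pos hL x).le
  simp only [Pi.add_apply]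
  nlinarith

/-- second moment: `∫ x² w = (1/L) ∫ w` -/
lemma sq_val {L : ℝ} (hL : 0 < L) : ∫ x, x ^ 2 * w1 L x = L⁻¹ * ∫ x, w1 L x := by
  have key : ∫ x : ℝ, (L * (x ^ 2 * w1 L x) - w1 L x) = 0 := by
    have hd : ∀ x : ℝ, HasDerivAt (fun x : ℝ => -x * (1 + L * x ^ 2)⁻¹)
        (L * (x ^ 2 * w1 L x) - w1 L x) x := by
      intro x
      have h0 : (1 + L * x ^ 2) ≠ 0 := by positivity
      have h1 : HasDerivAt (fun x : ℝ => 1 + L * x ^ 2) (L * (2 * x)) x := by
        have := ((hasDerivAt_pow 2 x).const_mul L).const_add 1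
        simpa using this
      have h2 := ((hasDerivAt_id x).neg).mul (h1.inv h0)
      refine h2.congr_deriv ?_
      unfold w1
      simp only [Pi.inv_apply, Pi.neg_apply, id_eq]
      field_simp
      ring
    have hlim : ∀ l : Filter ℝ, (l = Filter.atTop ∨ l = Filter.atBot) →
        Filter.Tendsto (fun x : ℝ => -x * (1 + L * x ^ 2)⁻¹) l (nhds 0) := by
      intro l hl
      rw [tendsto_zero_iff_norm_tendsto_zero]
      have hz : Filter.Tendsto (fun x : ℝ => (L * |x|)⁻¹) l (nhds 0) := by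
        apply Filter.Tendsto.inv_tendsto_atTop
        apply Filter.Tendsto.const_mul_atTop hL
        rcases hl with rfl | rfl
        · exact Filter.tendsto_abs_atTop_atTop
        · exact Filter.tendsto_abs_atBot_atTop
      refine squeeze_zero (fun x => norm_nonneg _) (fun x => ?_) hz
      rw [norm_mul, norm_neg, Real.norm_eq_abs, norm_inv,
        Real.norm_of_nonneg (by positivity : (0 : ℝ) ≤ 1 + L * x ^ 2)]
      rcases eq_or_lt_of_le (abs_nonneg x) with h | h
      · rw [← h]; simp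
      · rw [← div_eq_mul_inv, div_le_iff₀ (by positivity), inv_mul_eq_div,
          le_div_iff₀ (by positivity)]
        have : |x| * (L * |x|) = L * x ^ 2 := by rw [← sq_abs]; ring
        linarith
    have hi : Integrable (fun x : ℝ => L * (x ^ 2 * w1 L x) - w1 L x) :=
      ((sq_int hL).const_mul L).sub (w1_int hL)
    have := integral_of_hasDerivAt_of_tendsto hd hi (hlim _ (Or.inr rfl)) (hlim _ (Or.inl rfl))
    rw [this]; ring
  rw [integral_sub ((sq_int hL).const_mul L) (w1_int hL), integral_const_mul] at key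
  rw [inv_mul_eq_div, eq_div_iff hL.ne']
  linarith

lemma w1_val_le {L : ℝ} (hL : 0 < L) : ∫ x, w1 L x ≤ (Real.sqrt L)⁻¹ * Real.pi := by
  rw [← base_val hL]
  exact integral_mono (w1_int hL) (base_int hL) (w1_le hL)

/-- the weight cut at `δ` if `c` -/
def g1 (c : Prop) [Decidable c] (L δ x : ℝ) : ℝ := if c ∧ δ < |x| then 0 else w1 L x

variable {c : Prop} [Decidable c]

lemma g1_nonneg {L : ℝ} (hL : 0 < L) (δ x : ℝ) : 0 ≤ g1 c L δ x := by
  unfold g1; split_ifs
  · exact le_rfl
  · exact (w1_pos hL x).le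

lemma g1_le {L : ℝ} (hL : 0 < L) (δ x : ℝ) : g1 c L δ x ≤ w1 L x := by
  unfold g1; split_ifs
  · exact (w1_pos hL x).le
  · exact le_rfl

lemma g1_neg (L δ x : ℝ) : g1 c L δ (-x) = g1 c L δ x := by
  unfold g1; rw [w1_neg, abs_neg]

lemma g1_meas {L : ℝ} (hL : 0 < L) (δ : ℝ) : Measurable (g1 c L δ) := by
  unfold g1
  refine Measurable.ite ?_ measurable_const (w1_cont hL).measurable
  by_cases h : c
  · simp only [h, true_and]
    exact measurableSet_lt measurable_const (continuous_abs.measurable)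
  · simp [h]

lemma g1_int {L : ℝ} (hL : 0 < L) (δ : ℝ) : Integrable (g1 c L δ) := by
  refine (w1_int hL).mono' (g1_meas hL δ).aestronglyMeasurable
    (Filter.Eventually.of_forall fun x => ?_)
  rw [Real.norm_of_nonneg (g1_nonneg hL δ x)]
  exact g1_le hL δ x

lemma sq_g1_int {L : ℝ} (hL : 0 < L) (δ : ℝ) : Integrable (fun x => x ^ 2 * g1 c L δ x) := by
  refine (sq_int hL).mono' ((measurable_id.pow_const 2).mul (g1_meas hL δ)).aestronglyMeasurable
    (Filter.Eventually.of_forall fun x => ?_)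
  rw [Real.norm_of_nonneg (mul_nonneg (sq_nonneg _) (g1_nonneg hL δ x))]
  exact mul_le_mul_of_nonneg_left (g1_le hL δ x) (sq_nonneg _)

lemma id_g1_int {L : ℝ} (hL : 0 < L) (δ : ℝ) : Integrable (fun x => x * g1 c L δ x) := by
  refine (id_int hL).norm.mono' (measurable_id.mul (g1_meas hL δ)).aestronglyMeasurable
    (Filter.Eventually.of_forall fun x => ?_)
  rw [norm_mul, norm_mul, Real.norm_of_nonneg (g1_nonneg hL δ x),
    Real.norm_of_nonneg (w1_pos hL x).le]
  exact mul_le_mul_of_nonneg_left (g1_le hL δ x) (norm_nonneg _)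

lemma id_g1_val (L δ : ℝ) : ∫ x, x * g1 c L δ x = 0 := by
  have h : ∫ x, x * g1 c L δ x = ∫ x, -(x * g1 c L δ x) := by
    have := integral_neg_eq_self (fun x : ℝ => x * g1 c L δ x) volume
    rw [← this]
    congr 1
    ext x
    rw [g1_neg]; ring
  rw [integral_neg] at h
  linarith

lemma sq_g1_val_le {L : ℝ} (hL : 0 < L) (δ : ℝ) :
    ∫ x, x ^ 2 * g1 c L δ x ≤ (if c then δ ^ 2 else 1 / L) * ∫ x, g1 c L δ x := by
  by_cases h : c
  · rw [if_pos h, ← integral_const_mul]
    refine integral_mono (sq_g1_int hL δ) ((g1_int hL δ).const_mul _) fun x => ?_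
    unfold g1
    by_cases h2 : δ < |x|
    · simp [h, h2]
    · simp only [h, h2, and_false, if_false]
      apply mul_le_mul_of_nonneg_right _ (w1_pos hL x).le
      rw [← sq_abs]
      exact pow_le_pow_left₀ (abs_nonneg _) (not_lt.1 h2) 2
  · have : g1 c L δ = w1 L := by ext x; unfold g1; simp [h]
    rw [if_neg h, this, sq_val hL, one_div]

/-- the mass kept by the cut -/
lemma g1_mass {L δ : ℝ} (hL : 0 < L) (hδ : 0 < δ) :
    Real.exp (-(if c then 2 + max 0 (-Real.log (Real.sqrt L * δ)) else 0)) * ∫ x, w1 L x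
      ≤ ∫ x, g1 c L δ x := by
  by_cases h : c
  swap
  · have : g1 c L δ = w1 L := by ext x; unfold g1; simp [h]
    rw [if_neg h, this]; simp
  rw [if_pos h]
  have hs : 0 < Real.sqrt L := Real.sqrt_pos.2 hL
  set d : ℝ := min δ (Real.sqrt L)⁻¹ with hd
  have hd0 : 0 < d := lt_min hδ (inv_pos.2 hs)
  have hlow : d / 2 ≤ ∫ x, g1 c L δ x := by
    have h1 : ∫ x, Set.indicator (Set.Icc (-d) d) (fun _ => (1 / 4 : ℝ)) x = d / 2 := by
      rw [integral_indicator measurableSet_Icc]
      simp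
      rw [max_eq_left (by linarith)]
      ring
    rw [← h1]
    refine integral_mono ?_ (g1_int hL δ) fun x => ?_
    · exact (integrable_indicator_iff measurableSet_Icc).2
        (integrableOn_const (by simp))
    · by_cases hx : x ∈ Set.Icc (-d) d
      · rw [Set.indicator_of_mem hx]
        have hx' : |x| ≤ d := abs_le.2 hx
        unfold g1
        rw [if_neg (by push Not; intro _; exact hx'.trans (min_le_left _ _))]
        unfold w1
        have h2 : L * x ^ 2 ≤ 1 := by
          have h3 : |x| ≤ (Real.sqrt L)⁻¹ := hx'.trans (min_le_right _ _)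
          have h4 : x ^ 2 ≤ ((Real.sqrt L)⁻¹) ^ 2 := by
            rw [← sq_abs]; exact pow_le_pow_left₀ (abs_nonneg _) h3 2
          rw [inv_pow, Real.sq_sqrt hL.le] at h4
          calc L * x ^ 2 ≤ L * L⁻¹ := mul_le_mul_of_nonneg_left h4 hL.le
            _ = 1 := mul_inv_cancel₀ hL.ne'
        have h0 : 0 ≤ L * x ^ 2 := by positivity
        rw [one_div]
        apply inv_anti₀ (by positivity)
        nlinarith
      · rw [Set.indicator_of_notMem hx]
        exact g1_nonneg hL δ x
  have hup := w1_val_le hL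
  have hexp : Real.exp (-(2 + max 0 (-Real.log (Real.sqrt L * δ)))) ≤ Real.exp (-2) * (Real.sqrt L * d) := by
    rw [neg_add, Real.exp_add]
    apply mul_le_mul_of_nonneg_left _ (Real.exp_pos _).le
    have hsd : 0 < Real.sqrt L * δ := mul_pos hs hδ
    rcases le_total (Real.sqrt L * δ) 1 with h1 | h1
    · have hm : d = δ := by
        rw [hd]; apply min_eq_left
        rw [← one_div, le_div_iff₀ hs]; linarith
      rw [max_eq_right (by have := Real.log_nonpos hsd.le h1; linarith), neg_neg,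
        Real.exp_log hsd, hm]
    · have hm : d = (Real.sqrt L)⁻¹ := by
        rw [hd]; apply min_eq_right
        rw [← one_div, div_le_iff₀ hs]; linarith
      rw [max_eq_left (by have := Real.log_nonneg h1; linarith), hm, mul_inv_cancel₀ hs.ne']
      simp
  have he : Real.exp (-2) * Real.pi ≤ 1 / 2 := by
    have h1 : Real.exp 1 > 2.7182818283 := Real.exp_one_gt_d9
    have h2 : Real.exp 2 = Real.exp 1 * Real.exp 1 := by rw [← Real.exp_add]; norm_num
    have h3 : Real.pi < 3.15 := Real.pi_lt_d2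
    have h4 : (7 : ℝ) < Real.exp 2 := by rw [h2]; nlinarith
    rw [Real.exp_neg, inv_mul_le_iff₀ (Real.exp_pos _)]
    linarith
  have hw : 0 ≤ ∫ x, w1 L x := integral_nonneg fun x => (w1_pos hL x).le
  calc _ ≤ (Real.exp (-2) * (Real.sqrt L * d)) * ((Real.sqrt L)⁻¹ * Real.pi) :=
        mul_le_mul hexp hup hw (by positivity)
    _ = (Real.exp (-2) * Real.pi) * d := by
        field_simp
    _ ≤ 1 / 2 * d := mul_le_mul_of_nonneg_right he hd0.le
    _ = d / 2 := by ring
    _ ≤ _ := hlow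

end

end Pool.Agent.Helper1.NF
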