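import Pool.Agent.Helper18.NF.Stmts

/-! # PWR : constant times `p ^ N`-th powers give infinite backward orbits -/

set_option autoImplicit false

namespace Pool.Agent.Helper18.NF

open Pool.Agent.Helper14.BSC Polynomial

/-- the denominator -/
noncomputable def pwrB (k : Type) [Field k] (p : ℕ) : k[X] := (X + 1) ^ p - X ^ p

theorem pwr_coeff {k : Type} [Field k] (p i : ℕ) :
    (pwrB k p).coeff i = (p.choose i : k) - if i = p then 1 else 0 := by
  unfold pwrB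
  rw [coeff_sub, coeff_X_add_one_pow, coeff_X_pow]

theorem pwr_natDegree {k : Type} [Field k] [CharZero k] {p : ℕ} (hp : 2 ≤ p) :
    (pwrB k p).natDegree = p - 1 := by
  apply natDegree_eq_of_le_of_coeff_ne_zero
  · rw [natDegree_le_iff_coeff_eq_zero]
    intro i hi
    rw [pwr_coeff]
    rcases Nat.lt_or_ge p i with h | h
    · rw [Nat.choose_eq_zero_of_lt h, if_neg (by omega)]
      simp
    · have h2 : i = p := by omega
      rw [h2, Nat.choose_self, if_pos rfl]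
      simp
  · rw [pwr_coeff, if_neg (by omega), sub_zero]
    have h1 : p.choose (p - 1) = p := by
      have h4 := Nat.choose_symm (n := p) (k := 1) (by omega)
      rw [h4, Nat.choose_one_right]
    rw [h1]
    exact Nat.cast_ne_zero.2 (by omega)

theorem pwr_dyn {k : Type} [Field k] [CharZero k] {p : ℕ} (hp : 2 ≤ p) :
    Dyn (X ^ p : k[X]) (pwrB k p) := by
  refine ⟨?_, ?_, ?_⟩
  · have h1 : IsCoprime (X : k[X]) (X + 1) := ⟨-1, 1, by ring⟩
    have h2 : IsCoprime ((X : k[X]) ^ p) ((X + 1) ^ p) := h1.pow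
    have h3 : IsCoprime ((X : k[X]) ^ p) ((X + 1) ^ p + X ^ p * (-1)) := h2.add_mul_left_right _
    have h4 : (X + 1 : k[X]) ^ p + X ^ p * (-1) = pwrB k p := by
      unfold pwrB
      ring
    rw [h4] at h3
    exact h3
  · rw [natDegree_X_pow, pwr_natDegree hp]
    omega
  · rw [pwr_natDegree hp]
    omega

theorem pwr_step {k M : Type} [Field k] [Field M] [Algebra k M] {p : ℕ} (u : M) (h1 : u ≠ 1)
    (h2 : u ^ p ≠ 1) : dl (X ^ p : k[X]) (pwrB k p) (u - 1)⁻¹ = (u ^ p - 1)⁻¹ := by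
  have h3 : u - 1 ≠ 0 := sub_ne_zero.2 h1
  have h4 : u ^ p - 1 ≠ 0 := sub_ne_zero.2 h2
  have h5 : (u - 1)⁻¹ + 1 = u * (u - 1)⁻¹ := by
    field_simp
    ring
  unfold dl pwrB
  rw [map_sub, map_pow, map_pow, map_add, map_one, aeval_X, h5, mul_pow]
  have h6 : ((u - 1)⁻¹) ^ p ≠ 0 := pow_ne_zero _ (inv_ne_zero h3)
  have h7 : u ^ p * ((u - 1)⁻¹) ^ p - ((u - 1)⁻¹) ^ p = (u ^ p - 1) * ((u - 1)⁻¹) ^ p := by ring
  rw [h7, div_eq_iff (mul_ne_zero h4 h6), ← mul_assoc, inv_mul_cancel₀ h4, one_mul]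

theorem pwr_iter {k M : Type} [Field k] [Field M] [Algebra k M] {p : ℕ} (u : M)
    (h : ∀ i : ℕ, u ^ p ^ i ≠ 1) (i : ℕ) :
    (dl (X ^ p : k[X]) (pwrB k p))^[i] (u - 1)⁻¹ = (u ^ p ^ i - 1)⁻¹ := by
  induction i with
  | zero => rw [Function.iterate_zero, id_eq, pow_zero, pow_one]
  | succ i ih =>
    rw [Function.iterate_succ_apply', ih, pwr_step (u ^ p ^ i) (h i) (by
      rw [← pow_mul, ← pow_succ]
      exact h (i + 1)), ← pow_mul, ← pow_succ]

theorem st_PWR (hDLB : ST_DLB) : ST_PWR := by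
  intro k Ω _ _ _ _ _ D p hp f a hf ha hpow
  refine ⟨X ^ p, pwrB k p, pwr_dyn hp, ?_⟩
  have ha' : algebraMap k (LL D) a ≠ 0 := by
    rw [Ne, map_eq_zero]
    exact ha
  have hf' : ∀ N : ℕ, ∃ g : LL D, f / algebraMap k (LL D) a = g ^ p ^ N := by
    intro N
    obtain ⟨g, hg⟩ := hpow N
    exact ⟨g, by rw [hg, mul_div_cancel_left₀ _ ha']⟩
  have hNC : NC D (f / algebraMap k (LL D) a) := by
    intro c hc
    apply hf (c * a)
    rw [map_mul, ← hc, div_mul_cancel₀ _ ha']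
  have hg : ∀ (g : LL D) (N : ℕ), f / algebraMap k (LL D) a = g ^ p ^ N → NC D g := by
    intro g N h c hc
    apply hNC (c ^ p ^ N)
    rw [h, hc, map_pow]
  refine ⟨(f / algebraMap k (LL D) a - 1)⁻¹, ?_, ?_⟩
  · intro c hc
    apply hNC (c⁻¹ + 1)
    rw [map_add, map_inv₀, ← hc, inv_inv, map_one, sub_add_cancel]
  · intro N
    obtain ⟨g, h⟩ := hf' N
    refine ⟨(g - 1)⁻¹, ?_⟩
    have h1 : ∀ i : ℕ, g ^ p ^ i ≠ 1 := by
      intro i hi
      have h2 : (X ^ p ^ i - C 1 : k[X]) ≠ 0 :=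
        X_pow_sub_C_ne_zero (Nat.pos_of_ne_zero (pow_ne_zero _ (by omega))) _
      apply (hDLB k Ω D).1 g (hg g N h) _ h2
      rw [map_sub, map_pow, aeval_X, map_one, map_one, hi, sub_self]
    rw [pwr_iter g h1 N, h]

end Pool.Agent.Helper18.NF
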