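import Pool.Agent.Helper18.NF.Stmts

/-! # UNK : the uniform version of VFN -/

set_option autoImplicit false

namespace Pool.Agent.Helper18.NF

open Pool.Agent.Helper14.BSC Polynomial

/-- the system of equations -/
noncomputable def unkS {K : Type} [Field K] (n : ℕ) {ι : Type} [Fintype ι] (A B : ι → K[X])
    (κ : ℕ → K) : Set (MvPolynomial (ι × ℕ × Bool) K) :=
  {q | (∃ (i : ι) (j : ℕ), j ≤ n ∧ q = MvPolynomial.X (i, j, true) *
      Polynomial.aeval (MvPolynomial.X (i, j, false) : MvPolynomial (ι × ℕ × Bool) K) (B i) - 1) ∨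
    (∃ (i : ι) (j : ℕ), j ≤ n ∧ q = MvPolynomial.X (i, j + 1, false) -
      Polynomial.aeval (MvPolynomial.X (i, j, false) : MvPolynomial (ι × ℕ × Bool) K) (A i) *
        MvPolynomial.X (i, j, true)) ∨
    (∃ j : ℕ, 1 ≤ j ∧ j ≤ n ∧ q =
      ∏ i, Polynomial.aeval (MvPolynomial.X (i, j, false) : MvPolynomial (ι × ℕ × Bool) K) (B i) -
      MvPolynomial.C (κ j) *
      ∏ i, Polynomial.aeval (MvPolynomial.X (i, 0, false) : MvPolynomial (ι × ℕ × Bool) K) (B i))}

theorem unk_ev {K L : Type} [Field K] [Field L] [Algebra K L] {τ : Type} (y : τ → L) (t : τ)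
    (G : K[X]) : MvPolynomial.aeval y (Polynomial.aeval (MvPolynomial.X t : MvPolynomial τ K) G) =
      Polynomial.aeval (y t) G := by
  rw [← Polynomial.aeval_algHom_apply, MvPolynomial.aeval_X]

theorem st_UNK (hVFN : ST_VFN) (hCPT : ST_CPT) : ST_UNK := by
  intro K _ _ n ι _ hcard A B dyn κ hκ
  have hF : ∀ i0 : ι, ∃ F : K[X], F ≠ 0 ∧ ∀ (L : Type) [Field L] [Algebra K L]
      (y : ι × ℕ × Bool → L), (∀ q ∈ unkS n A B κ, MvPolynomial.aeval y q = 0) →
      aeval (y (i0, 0, false)) F = 0 := by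
    intro i0
    apply hCPT K (ι × ℕ × Bool) (unkS n A B κ) (i0, 0, false)
    intro L _ _ y hy
    have h1 : ∀ i, ∀ j, j ≤ n → aeval (y (i, j, false)) (B i) ≠ 0 ∧
        y (i, j + 1, false) = aeval (y (i, j, false)) (A i) / aeval (y (i, j, false)) (B i) := by
      intro i j hj
      have h2 := hy _ (Or.inl ⟨i, j, hj, rfl⟩)
      have h3 := hy _ (Or.inr (Or.inl ⟨i, j, hj, rfl⟩))
      rw [map_sub, map_mul, unk_ev, MvPolynomial.aeval_X, map_one] at h2
      rw [map_sub, map_mul, unk_ev, MvPolynomial.aeval_X, MvPolynomial.aeval_X] at h3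
      have h4 : y (i, j, true) * aeval (y (i, j, false)) (B i) = 1 := sub_eq_zero.1 h2
      have h5 : aeval (y (i, j, false)) (B i) ≠ 0 := right_ne_zero_of_mul_eq_one h4
      refine ⟨h5, ?_⟩
      rw [sub_eq_zero.1 h3, eq_div_iff h5, mul_assoc, h4, mul_one]
    have h2 : ∀ j, 1 ≤ j → j ≤ n →
        ∏ i, aeval (y (i, j, false)) (B i) =
          algebraMap K L (κ j) * ∏ i, aeval (y (i, 0, false)) (B i) := by
      intro j hj1 hj2
      have h3 := hy _ (Or.inr (Or.inr ⟨j, hj1, hj2, rfl⟩))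
      rw [map_sub, map_mul, map_prod, map_prod, MvPolynomial.aeval_C] at h3
      have h4 := sub_eq_zero.1 h3
      rw [Finset.prod_congr rfl fun i _ => unk_ev y (i, j, false) (B i),
        Finset.prod_congr rfl fun i _ => unk_ev y (i, 0, false) (B i)] at h4
      exact h4
    obtain ⟨c, hc⟩ := hVFN K L n ι hcard A B dyn κ hκ (fun i j => y (i, j, false)) h1 h2 i0
    have h6 : IsAlgebraic K (algebraMap K L c) := isAlgebraic_algebraMap c
    rw [hc] at h6
    exact h6
  choose F hF0 hF1 using hF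
  refine ⟨∏ i, F i, Finset.prod_ne_zero_iff.2 fun i _ => hF0 i, ?_⟩
  intro L _ _ z h1 h2 i
  have hy : ∀ q ∈ unkS n A B κ, MvPolynomial.aeval
      (fun t : ι × ℕ × Bool => if t.2.2 = true then (aeval (z t.1 t.2.1) (B t.1))⁻¹ else z t.1 t.2.1)
        q = 0 := by
    intro q hq
    rcases hq with ⟨i, j, hj, rfl⟩ | ⟨i, j, hj, rfl⟩ | ⟨j, hj1, hj2, rfl⟩
    · rw [map_sub, map_mul, unk_ev, MvPolynomial.aeval_X, map_one]
      simp only [if_true, Bool.false_eq_true, if_false]
      rw [inv_mul_cancel₀ (h1 i j hj).1, sub_self]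
    · rw [map_sub, map_mul, unk_ev, MvPolynomial.aeval_X, MvPolynomial.aeval_X]
      simp only [if_true, Bool.false_eq_true, if_false]
      rw [(h1 i j hj).2, div_eq_mul_inv, sub_self]
    · rw [map_sub, map_mul, map_prod, map_prod, MvPolynomial.aeval_C]
      rw [Finset.prod_congr rfl fun i _ => unk_ev _ (i, j, false) (B i),
        Finset.prod_congr rfl fun i _ => unk_ev _ (i, 0, false) (B i)]
      simp only [Bool.false_eq_true, if_false]
      rw [h2 j hj1 hj2, sub_self]
  have h3 := hF1 i L _ hy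
  simp only [Bool.false_eq_true, if_false] at h3
  rw [map_prod]
  exact Finset.prod_eq_zero (Finset.mem_univ i) h3

end Pool.Agent.Helper18.NF
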