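import Pool.Agent.Helper28.NF.Stmts
import Pool.Agent.Helper1.NF.OneD

/-!
# Lower bound of the normalised partition function (module N6)
-/

namespace Pool.Agent.Helper1.NF

open Finset MeasureTheory Pool.Agent.Helper28.NF
open scoped Classical

noncomputable section

variable {ι κ : Type} [Fintype ι] [Fintype κ]

lemma Ph_nonneg (x : ℝ) : 0 ≤ Ph x := by unfold Ph; positivity

lemma Ph_le_sq (x : ℝ) : Ph x ≤ x ^ 2 := by
  unfold Ph
  rw [div_le_iff₀ (by positivity)]
  nlinarith [sq_nonneg x, sq_nonneg (x ^ 2)]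

lemma Ph_le_one (x : ℝ) : Ph x ≤ 1 := by
  unfold Ph
  rw [div_le_one (by positivity)]
  linarith

lemma Ph_cont : Continuous Ph := by
  unfold Ph
  exact Continuous.div (by fun_prop) (by fun_prop) (fun x => by positivity)

omit [Fintype ι] in
lemma fv_cont (S : κ → Finset ι) (v : ι) : Continuous (fun y : κ → ℝ => fv S y v) := by
  unfold fv
  refine continuous_finsetSum _ fun j _ => ?_
  split_ifs
  · exact continuous_apply j
  · exact continuous_const

/-- the uncut product weight -/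
def wP (L : κ → ℝ) (y : κ → ℝ) : ℝ := ∏ j, w1 (L j) (y j)

/-- the cut product weight -/
def gP (G : Finset κ) (L δ : κ → ℝ) (y : κ → ℝ) : ℝ := ∏ j, g1 (j ∈ G) (L j) (δ j) (y j)

lemma wP_pos {L : κ → ℝ} (hL : ∀ j, 0 < L j) (y : κ → ℝ) : 0 < wP L y :=
  prod_pos fun j _ => w1_pos (hL j) _

lemma gP_nonneg {L : κ → ℝ} (hL : ∀ j, 0 < L j) (G : Finset κ) (δ y : κ → ℝ) :
    0 ≤ gP G L δ y := prod_nonneg fun j _ => g1_nonneg (hL j) _ _

lemma gP_le {L : κ → ℝ} (hL : ∀ j, 0 < L j) (G : Finset κ) (δ y : κ → ℝ) :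
    gP G L δ y ≤ wP L y :=
  prod_le_prod (fun j _ => g1_nonneg (hL j) _ _) fun j _ => g1_le (hL j) _ _

lemma wP_cont {L : κ → ℝ} (hL : ∀ j, 0 < L j) : Continuous (wP L) :=
  continuous_finsetProd _ fun j _ => (w1_cont (hL j)).comp (continuous_apply j)

lemma wP_int {L : κ → ℝ} (hL : ∀ j, 0 < L j) : Integrable (wP L) :=
  Integrable.fintype_prod (fun j => w1_int (hL j))

lemma gP_int {L : κ → ℝ} (hL : ∀ j, 0 < L j) (G : Finset κ) (δ : κ → ℝ) :
    Integrable (gP G L δ) :=
  Integrable.fintype_prod (fun j => g1_int (c := j ∈ G) (hL j) (δ j))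

lemma exp_pot (S : κ → Finset ι) {L : κ → ℝ} (hL : ∀ j, 0 < L j) (b : ι → ℝ) (y : κ → ℝ) :
    Real.exp (-Pot S L b y) = wP L y * Real.exp (-∑ v, b v * Ph (fv S y v)) := by
  unfold Pot wP
  rw [neg_add, Real.exp_add, mul_sum, ← sum_neg_distrib, Real.exp_sum]
  congr 1
  refine prod_congr rfl fun j _ => ?_
  have h : 0 < 1 + L j * y j ^ 2 := by have := hL j; positivity
  unfold w1
  rw [Real.exp_neg, two_mul, Real.exp_add, Real.exp_log h, ← sq]

lemma bdd_cont (S : κ → Finset ι) (b : ι → ℝ) :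
    Continuous (fun y : κ → ℝ => Real.exp (-∑ v, b v * Ph (fv S y v))) :=
  Real.continuous_exp.comp ((continuous_finsetSum _ fun v _ =>
    continuous_const.mul (Ph_cont.comp (fv_cont S v))).neg)

lemma bdd_le (S : κ → Finset ι) (b : ι → ℝ) (y : κ → ℝ) :
    Real.exp (-∑ v, b v * Ph (fv S y v)) ≤ Real.exp (∑ v, |b v|) := by
  apply Real.exp_le_exp.2
  rw [← sum_neg_distrib]
  refine sum_le_sum fun v _ => ?_
  have h1 := Ph_nonneg (fv S y v)
  have h2 := Ph_le_one (fv S y v)
  calc -(b v * Ph (fv S y v)) ≤ |b v * Ph (fv S y v)| := neg_le_abs _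
    _ = |b v| * Ph (fv S y v) := by rw [abs_mul, abs_of_nonneg h1]
    _ ≤ |b v| * 1 := mul_le_mul_of_nonneg_left h2 (abs_nonneg _)
    _ = |b v| := mul_one _

lemma pot_int (S : κ → Finset ι) {L : κ → ℝ} (hL : ∀ j, 0 < L j) (b : ι → ℝ) :
    Integrable (fun y : κ → ℝ => Real.exp (-Pot S L b y)) := by
  refine ((wP_int hL).const_mul (Real.exp (∑ v, |b v|))).mono' ?_
    (Filter.Eventually.of_forall fun y => ?_)
  · have : (fun y : κ → ℝ => Real.exp (-Pot S L b y))
        = fun y => wP L y * Real.exp (-∑ v, b v * Ph (fv S y v)) := by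
      ext y; exact exp_pot S hL b y
    rw [this]
    exact ((wP_cont hL).mul (bdd_cont S b)).aestronglyMeasurable
  · rw [Real.norm_of_nonneg (Real.exp_pos _).le, exp_pot S hL b y, mul_comm]
    exact mul_le_mul_of_nonneg_right (bdd_le S b y) (wP_pos hL y).le

lemma ZZ_zero (S : κ → Finset ι) {L : κ → ℝ} (hL : ∀ j, 0 < L j) :
    ZZ S L (fun _ => 0) = ∏ j, ∫ x, w1 (L j) x := by
  unfold ZZ
  have : (fun y : κ → ℝ => Real.exp (-Pot S L (fun _ => 0) y)) = fun y => ∏ j, w1 (L j) (y j) := by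
    ext y
    rw [exp_pot S hL]
    simp [wP]
  rw [this, integral_fintype_prod_volume_eq_prod (fun j => w1 (L j))]

lemma w1_val_pos {L : ℝ} (hL : 0 < L) : 0 < ∫ x, w1 L x := by
  rw [integral_pos_iff_support_of_nonneg (fun x => (w1_pos hL x).le) (w1_int hL)]
  have : Function.support (w1 L) = Set.univ := by
    ext x; simp [(w1_pos hL x).ne']
  rw [this]
  simp

lemma gP_val (G : Finset κ) (L δ : κ → ℝ) :
    ∫ y, gP G L δ y = ∏ j, ∫ x, g1 (j ∈ G) (L j) (δ j) x := by
  unfold gP
  exact integral_fintype_prod_volume_eq_prod (fun j => g1 (j ∈ G) (L j) (δ j))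

/-- one factor of the mixed second moment -/
def fac (G : Finset κ) (L δ : κ → ℝ) (j j' i : κ) (x : ℝ) : ℝ :=
  g1 (i ∈ G) (L i) (δ i) x * ((if i = j then x else 1) * (if i = j' then x else 1))

omit [Fintype κ] in
lemma fac_int (G : Finset κ) {L : κ → ℝ} (hL : ∀ j, 0 < L j) (δ : κ → ℝ) (j j' i : κ) :
    Integrable (fac G L δ j j' i) := by
  by_cases h1 : i = j <;> by_cases h2 : i = j'
  · have : fac G L δ j j' i = fun x => x ^ 2 * g1 (i ∈ G) (L i) (δ i) x := by
      ext x; unfold fac; rw [if_pos h1, if_pos h2]; ring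
    rw [this]; exact sq_g1_int (hL i) _
  · have : fac G L δ j j' i = fun x => x * g1 (i ∈ G) (L i) (δ i) x := by
      ext x; unfold fac; rw [if_pos h1, if_neg h2]; ring
    rw [this]; exact id_g1_int (hL i) _
  · have : fac G L δ j j' i = fun x => x * g1 (i ∈ G) (L i) (δ i) x := by
      ext x; unfold fac; rw [if_neg h1, if_pos h2]; ring
    rw [this]; exact id_g1_int (hL i) _
  · have : fac G L δ j j' i = g1 (i ∈ G) (L i) (δ i) := by
      ext x; unfold fac; rw [if_neg h1, if_neg h2]; ring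
    rw [this]; exact g1_int (hL i) _

lemma gP_pair (G : Finset κ) (L δ : κ → ℝ) (j j' : κ) (y : κ → ℝ) :
    gP G L δ y * (y j * y j') = ∏ i, fac G L δ j j' i (y i) := by
  unfold gP fac
  rw [prod_mul_distrib, prod_mul_distrib]
  simp

lemma pair_int (G : Finset κ) {L : κ → ℝ} (hL : ∀ j, 0 < L j) (δ : κ → ℝ) (j j' : κ) :
    Integrable (fun y => gP G L δ y * (y j * y j')) := by
  have : (fun y => gP G L δ y * (y j * y j')) = fun y : κ → ℝ => ∏ i, fac G L δ j j' i (y i) := by
    ext y; exact gP_pair G L δ j j' y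
  rw [this]
  exact Integrable.fintype_prod (fun i => fac_int G hL δ j j' i)

lemma pair_val (G : Finset κ) (L δ : κ → ℝ) (j j' : κ) :
    ∫ y, gP G L δ y * (y j * y j') = ∏ i, ∫ x, fac G L δ j j' i x := by
  have : (fun y => gP G L δ y * (y j * y j')) = fun y : κ → ℝ => ∏ i, fac G L δ j j' i (y i) := by
    ext y; exact gP_pair G L δ j j' y
  rw [this, integral_fintype_prod_volume_eq_prod (fun i => fac G L δ j j' i)]

lemma pair_ne (G : Finset κ) (L δ : κ → ℝ) {j j' : κ} (h : j ≠ j') :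
    ∫ y, gP G L δ y * (y j * y j') = 0 := by
  rw [pair_val]
  apply prod_eq_zero (mem_univ j)
  have : fac G L δ j j' j = fun x => x * g1 (j ∈ G) (L j) (δ j) x := by
    ext x; unfold fac; rw [if_pos rfl, if_neg h]; ring
  rw [this]
  exact id_g1_val _ _

lemma pair_eq (G : Finset κ) {L : κ → ℝ} (hL : ∀ j, 0 < L j) (δ : κ → ℝ) (j : κ) :
    ∫ y, gP G L δ y * (y j * y j) ≤ (if j ∈ G then δ j ^ 2 else 1 / L j) * ∫ y, gP G L δ y := by
  rw [pair_val, gP_val, ← mul_prod_erase univ _ (mem_univ j),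
    ← mul_prod_erase univ (fun j => ∫ x, g1 (j ∈ G) (L j) (δ j) x) (mem_univ j), ← mul_assoc]
  have h1 : ∫ x, fac G L δ j j j x ≤ (if j ∈ G then δ j ^ 2 else 1 / L j) *
      ∫ x, g1 (j ∈ G) (L j) (δ j) x := by
    have : fac G L δ j j j = fun x => x ^ 2 * g1 (j ∈ G) (L j) (δ j) x := by
      ext x; unfold fac; simp only [if_true]; ring
    rw [this]
    exact sq_g1_val_le (hL j) (δ j)
  have h2 : ∏ i ∈ univ.erase j, ∫ x, fac G L δ j j i x
      = ∏ i ∈ univ.erase j, ∫ x, g1 (i ∈ G) (L i) (δ i) x := by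
    refine prod_congr rfl fun i hi => ?_
    have : fac G L δ j j i = g1 (i ∈ G) (L i) (δ i) := by
      ext x; unfold fac; rw [if_neg (ne_of_mem_erase hi)]; ring
    rw [this]
  rw [h2]
  exact mul_le_mul_of_nonneg_right h1
    (prod_nonneg fun i _ => integral_nonneg fun x => g1_nonneg (hL i) _ _)

omit [Fintype ι] in
lemma fv_sq (S : κ → Finset ι) (v : ι) (y : κ → ℝ) :
    fv S y v ^ 2 = ∑ j, ∑ j', (if v ∈ S j ∧ v ∈ S j' then 1 else 0) * (y j * y j') := by
  unfold fv
  rw [sq, sum_mul_sum]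
  refine sum_congr rfl fun j _ => sum_congr rfl fun j' _ => ?_
  by_cases h1 : v ∈ S j <;> by_cases h2 : v ∈ S j' <;> simp [h1, h2]

omit [Fintype ι] in
lemma fv_sq_eq (S : κ → Finset ι) (G : Finset κ) (L δ : κ → ℝ) (v : ι) :
    (fun y => gP G L δ y * fv S y v ^ 2) = fun y => ∑ j, ∑ j',
      (if v ∈ S j ∧ v ∈ S j' then 1 else 0) * (gP G L δ y * (y j * y j')) := by
  ext y
  rw [fv_sq, mul_sum]
  refine sum_congr rfl fun j _ => ?_
  rw [mul_sum]
  exact sum_congr rfl fun j' _ => by ring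

omit [Fintype ι] in
lemma fv_sq_int (S : κ → Finset ι) (G : Finset κ) {L : κ → ℝ} (hL : ∀ j, 0 < L j) (δ : κ → ℝ)
    (v : ι) : Integrable (fun y => gP G L δ y * fv S y v ^ 2) := by
  rw [fv_sq_eq]
  exact integrable_finsetSum _ fun j _ => integrable_finsetSum _ fun j' _ =>
    (pair_int G hL δ j j').const_mul _

omit [Fintype ι] in
lemma fv_sq_val (S : κ → Finset ι) (G : Finset κ) {L : κ → ℝ} (hL : ∀ j, 0 < L j) (δ : κ → ℝ)
    (v : ι) : ∫ y, gP G L δ y * fv S y v ^ 2 ≤
      (∑ j, if v ∈ S j then (if j ∈ G then δ j ^ 2 else 1 / L j) else 0) * ∫ y, gP G L δ y := by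
  rw [fv_sq_eq, integral_finsetSum _ fun j _ => integrable_finsetSum _ fun j' _ =>
    (pair_int G hL δ j j').const_mul _, sum_mul]
  refine sum_le_sum fun j _ => ?_
  rw [integral_finsetSum _ fun j' _ => (pair_int G hL δ j j').const_mul _,
    sum_eq_single_of_mem j (mem_univ j)]
  · rw [integral_const_mul]
    by_cases h : v ∈ S j
    · simp only [h, and_self, if_true, one_mul]
      exact pair_eq G hL δ j
    · simp [h]
  · intro j' _ hne
    rw [integral_const_mul, pair_ne G L δ hne.symm, mul_zero]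

theorem st_ZLOW : ST_ZLOW := by
  intro ι κ _ _ S L b G δ hL hδ
  set a : ι → ℝ := fun v => max (b v) 0 with ha
  set c : ι → ℝ := fun v => ∑ j, (if v ∈ S j then (if j ∈ G then δ j ^ 2 else 1 / L j) else 0)
    with hc
  set m : ℝ := ∑ v, a v * c v with hm
  set r : κ → ℝ := fun j => 2 + max 0 (-Real.log (Real.sqrt (L j) * δ j)) with hr
  have ha0 : ∀ v, 0 ≤ a v := fun v => le_max_right _ _
  have hI : 0 ≤ ∫ y, gP G L δ y := integral_nonneg fun y => gP_nonneg hL G δ y
  -- main integral inequality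
  have h1 : Real.exp (-m) * ∫ y, gP G L δ y ≤ ZZ S L b := by
    have hint : Integrable (fun y => gP G L δ y * (Real.exp (-m) *
        (1 + m - ∑ v, a v * fv S y v ^ 2))) := by
      have : (fun y => gP G L δ y * (Real.exp (-m) * (1 + m - ∑ v, a v * fv S y v ^ 2)))
          = fun y => (Real.exp (-m) * (1 + m)) * gP G L δ y
            - ∑ v, (Real.exp (-m) * a v) * (gP G L δ y * fv S y v ^ 2) := by
        ext y
        rw [mul_sub, mul_sub, mul_sum, mul_sum]
        congr 1
        · ring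
        · exact sum_congr rfl fun v _ => by ring
      rw [this]
      exact ((gP_int hL G δ).const_mul _).sub
        (integrable_finsetSum _ fun v _ => (fv_sq_int S G hL δ v).const_mul _)
    calc Real.exp (-m) * ∫ y, gP G L δ y
        ≤ ∫ y, gP G L δ y * (Real.exp (-m) * (1 + m - ∑ v, a v * fv S y v ^ 2)) := by
          have : (fun y => gP G L δ y * (Real.exp (-m) * (1 + m - ∑ v, a v * fv S y v ^ 2)))
              = fun y => (Real.exp (-m) * (1 + m)) * gP G L δ y
                - ∑ v, (Real.exp (-m) * a v) * (gP G L δ y * fv S y v ^ 2) := by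
            ext y
            rw [mul_sub, mul_sub, mul_sum, mul_sum]
            congr 1
            · ring
            · exact sum_congr rfl fun v _ => by ring
          rw [this, integral_sub ((gP_int hL G δ).const_mul _)
            (integrable_finsetSum _ fun v _ => (fv_sq_int S G hL δ v).const_mul _),
            integral_const_mul, integral_finsetSum _ fun v _ => (fv_sq_int S G hL δ v).const_mul _]
          have h2 : ∑ v, ∫ y, (Real.exp (-m) * a v) * (gP G L δ y * fv S y v ^ 2)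
              ≤ Real.exp (-m) * (m * ∫ y, gP G L δ y) := by
            rw [hm, sum_mul, mul_sum]
            refine sum_le_sum fun v _ => ?_
            rw [integral_const_mul, mul_assoc, mul_assoc]
            exact mul_le_mul_of_nonneg_left (mul_le_mul_of_nonneg_left (fv_sq_val S G hL δ v)
              (ha0 v)) (Real.exp_pos _).le
          linarith
      _ ≤ ∫ y, Real.exp (-Pot S L b y) := by
          refine integral_mono hint (pot_int S hL b) fun y => ?_
          simp only []
          rw [exp_pot S hL b y]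
          have h3 : Real.exp (-m) * (1 + m - ∑ v, a v * fv S y v ^ 2)
              ≤ Real.exp (-∑ v, b v * Ph (fv S y v)) := by
            have h4 : ∑ v, b v * Ph (fv S y v) ≤ ∑ v, a v * fv S y v ^ 2 := by
              refine sum_le_sum fun v _ => ?_
              calc b v * Ph (fv S y v) ≤ a v * Ph (fv S y v) :=
                    mul_le_mul_of_nonneg_right (le_max_left _ _) (Ph_nonneg _)
                _ ≤ a v * fv S y v ^ 2 := mul_le_mul_of_nonneg_left (Ph_le_sq _) (ha0 v)
            have h5 : 1 + m - ∑ v, a v * fv S y v ^ 2 ≤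
                Real.exp (m - ∑ v, a v * fv S y v ^ 2) := by
              have := Real.add_one_le_exp (m - ∑ v, a v * fv S y v ^ 2)
              linarith
            calc _ ≤ Real.exp (-m) * Real.exp (m - ∑ v, a v * fv S y v ^ 2) :=
                  mul_le_mul_of_nonneg_left h5 (Real.exp_pos _).le
              _ = Real.exp (-∑ v, a v * fv S y v ^ 2) := by rw [← Real.exp_add]; ring_nf
              _ ≤ _ := Real.exp_le_exp.2 (by linarith)
          calc gP G L δ y * (Real.exp (-m) * (1 + m - ∑ v, a v * fv S y v ^ 2))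
              ≤ gP G L δ y * Real.exp (-∑ v, b v * Ph (fv S y v)) :=
                mul_le_mul_of_nonneg_left h3 (gP_nonneg hL G δ y)
            _ ≤ _ := mul_le_mul_of_nonneg_right (gP_le hL G δ y) (Real.exp_pos _).le
      _ = ZZ S L b := rfl
  -- mass of the box
  have h2 : Real.exp (-∑ j ∈ G, r j) * ∏ j, ∫ x, w1 (L j) x ≤ ∫ y, gP G L δ y := by
    rw [gP_val]
    have : Real.exp (-∑ j ∈ G, r j) * ∏ j, ∫ x, w1 (L j) x
        = ∏ j, (Real.exp (-(if j ∈ G then r j else 0)) * ∫ x, w1 (L j) x) := by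
      rw [prod_mul_distrib, ← Real.exp_sum, sum_neg_distrib]
      congr 3
      rw [sum_ite_mem, univ_inter]
    rw [this]
    refine prod_le_prod (fun j _ => mul_nonneg (Real.exp_pos _).le (w1_val_pos (hL j)).le)
      fun j _ => ?_
    exact g1_mass (c := j ∈ G) (hL j) (hδ j)
  have hW : 0 < ∏ j, ∫ x, w1 (L j) x := prod_pos fun j _ => w1_val_pos (hL j)
  have h3 : Real.exp (-m - ∑ j ∈ G, r j) ≤ Zn S L b := by
    unfold Zn
    rw [ZZ_zero S hL, le_div_iff₀ hW, sub_eq_add_neg, Real.exp_add, mul_assoc]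
    exact (mul_le_mul_of_nonneg_left h2 (Real.exp_pos _).le).trans h1
  have h4 := Real.log_le_log (Real.exp_pos _) h3
  rw [Real.log_exp] at h4
  exact h4

end

end Pool.Agent.Helper1.NF
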